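import Pool.Agent.Q286.Apn.Even
import Pool.Agent.Q286.Apn.Mod4

/-!
In even dimension at least four, no point has exclude multiplicity `(2^n - 1) / 3` with respect
to the graph of a plateaued APN function.
-/

namespace Pool.Agent.Results.MP_4cdc07_co.MaxMultiplicity

open Finset Pool.Agent.Q286.Apn

variable {n : ℕ}

/-- the other coordinates -/
abbrev Oth (i₀ : Fin n) : Type := {i : Fin n // i ≠ i₀}

/-- the vector of the hyperplane `c^⊥` with support `S` outside `i₀` -/
def vec (c : V n) (i₀ : Fin n) (S : Finset (Oth i₀)) : V n := fun i =>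
  if h : i = i₀ then ∑ j ∈ S, c j.1 else (if (⟨i, h⟩ : Oth i₀) ∈ S then 1 else 0)

theorem zmod2_cases (t : ZMod 2) : t = 0 ∨ t = 1 := by
  revert t; decide

theorem sum_split (i₀ : Fin n) (f : Fin n → ZMod 2) :
    ∑ i, f i = f i₀ + ∑ j : Oth i₀, f j.1 := by
  rw [← add_sum_erase univ f (mem_univ i₀)]
  congr 1
  rw [← sum_subtype (s := univ.erase i₀) (p := fun i => i ≠ i₀) (by intro x; simp)]

theorem ip_vec (c : V n) (i₀ : Fin n) (S : Finset (Oth i₀)) (y : V n) :
    ip (vec c i₀ S) y = ∑ j ∈ S, (c j.1 * y i₀ + y j.1) := by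
  unfold ip
  rw [sum_split i₀]
  have h1 : vec c i₀ S i₀ = ∑ j ∈ S, c j.1 := by simp [vec]
  have h2 : ∀ j : Oth i₀, vec c i₀ S j.1 = if j ∈ S then 1 else 0 := by
    intro j
    unfold vec
    rw [dif_neg j.2]
  rw [h1, sum_mul, sum_add_distrib]
  congr 1
  simp only [h2]
  simp

theorem ip_single (i₀ : Fin n) (y : V n) : ip (Pi.single i₀ 1) y = y i₀ := by
  unfold ip
  simp [Pi.single_apply]

theorem ip_vec_c (c : V n) (i₀ : Fin n) (hc : c i₀ = 1) (S : Finset (Oth i₀)) :
    ip (vec c i₀ S) c = 0 := by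
  rw [ip_vec]
  apply sum_eq_zero
  intro j _
  rw [hc, mul_one]
  exact CharTwo.add_self_eq_zero _

/-- sums over the hyperplane -/
theorem sum_hyperplane (c : V n) (i₀ : Fin n) (hc : c i₀ = 1) (G : V n → ℤ) :
    ∑ v ∈ univ.filter (fun v => ip v c = 0), G v = ∑ S : Finset (Oth i₀), G (vec c i₀ S) := by
  classical
  symm
  apply sum_bij' (fun S _ => vec c i₀ S) (fun v _ => univ.filter (fun j : Oth i₀ => v j.1 = 1))
  · intro S _
    rw [mem_filter]
    exact ⟨mem_univ _, ip_vec_c c i₀ hc S⟩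
  · intro v _
    exact mem_univ _
  · intro S _
    ext j
    rw [mem_filter]
    have : vec c i₀ S j.1 = if j ∈ S then 1 else 0 := by
      unfold vec
      rw [dif_neg j.2]
    rw [this]
    by_cases h : j ∈ S <;> simp [h]
  · intro v hv
    rw [mem_filter] at hv
    ext i
    by_cases hi : i = i₀
    · subst hi
      have h1 : vec c i (univ.filter (fun j : Oth i => v j.1 = 1)) i =
          ∑ j ∈ univ.filter (fun j : Oth i => v j.1 = 1), c j.1 := by simp [vec]
      rw [h1]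
      have h2 := hv.2
      unfold ip at h2
      rw [sum_split i, hc, mul_one] at h2
      have h3 : ∑ j : Oth i, v j.1 * c j.1 = ∑ j ∈ univ.filter (fun j : Oth i => v j.1 = 1), c j.1 := by
        rw [sum_filter]
        apply sum_congr rfl
        intro j _
        rcases zmod2_cases (v j.1) with h | h
        · rw [h]; simp
        · rw [h]; simp
      rw [h3] at h2
      have h4 : ∀ a b : ZMod 2, a + b = 0 → b = a := by decide
      exact h4 _ _ h2
    · unfold vec
      rw [dif_neg hi]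
      simp only [mem_filter, mem_univ, true_and]
      rcases zmod2_cases (v i) with h | h
      · rw [h]; simp
      · rw [h]; simp
  · intro S _
    rfl

variable {k : ℕ} {F : V (2 * k) → V (2 * k)} {j : V (2 * k) → ℕ}

theorem two_dvd_one_add_sgn (t : ZMod 2) : (2 : ℤ) ∣ 1 + sgn t := by
  unfold sgn
  split_ifs <;> norm_num

/-- the sum over `vec S` and its translate is divisible by a high power of two -/
theorem div_walsh (F : V (2 * k) → V (2 * k)) (c : V (2 * k)) (i₀ : Fin (2 * k))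
    (T : Finset (Oth i₀)) :
    (2 : ℤ) ^ (T.card + 1) ∣ ∑ S ∈ T.powerset,
      (walsh F 0 (vec c i₀ S) + walsh F 0 (vec c i₀ S + Pi.single i₀ 1)) := by
  have h : ∀ S ∈ T.powerset, walsh F 0 (vec c i₀ S) + walsh F 0 (vec c i₀ S + Pi.single i₀ 1) =
      ∑ x, (1 + sgn (F x i₀)) * ∏ j ∈ S, sgn (c j.1 * F x i₀ + F x j.1) := by
    intro S _
    rw [walsh_eq, walsh_eq, ← sum_add_distrib]
    apply sum_congr rfl
    intro x _
    rw [ip_zero_left, sgn_zero, ip_add_left, ip_single, sgn_add, ip_vec, sgn_sum]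
    ring
  rw [sum_congr rfl h, sum_comm]
  apply dvd_sum
  intro x _
  rw [← mul_sum, ← prod_one_add, pow_succ, mul_comm ((2 : ℤ) ^ T.card)]
  apply mul_dvd_mul (two_dvd_one_add_sgn _)
  rw [← prod_const]
  apply prod_dvd_prod_of_dvd
  intro j _
  exact two_dvd_one_add_sgn _

/-- parity of the number of bent components in the subcubes of the hyperplane -/
theorem parity_cube (hD : Data F j) (c : V (2 * k)) (i₀ : Fin (2 * k))
    (hc : c i₀ = 1) (hk : 1 ≤ k) (hbent : ∀ v, ip v c = 1 → j v = k) (T : Finset (Oth i₀))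
    (hT : k ≤ T.card) :
    Even (∑ S ∈ T.powerset, if j (vec c i₀ S) = k then (1 : ℤ) else 0) := by
  have h1 := div_walsh F c i₀ T
  have h2 : ∑ S ∈ T.powerset,
      (walsh F 0 (vec c i₀ S) + walsh F 0 (vec c i₀ S + Pi.single i₀ 1)) =
      2 ^ k * ∑ S ∈ T.powerset, (hh F (vec c i₀ S) + hh F (vec c i₀ S + Pi.single i₀ 1)) := by
    rw [mul_sum]
    apply sum_congr rfl
    intro S _
    rw [hD.walsh_eq_hh, hD.walsh_eq_hh]
    ring
  rw [h2] at h1
  obtain ⟨e, he⟩ : ∃ e, T.card + 1 = k + (e + 1) := ⟨T.card - k, by omega⟩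
  rw [he, pow_add] at h1
  have h3 := Int.dvd_of_mul_dvd_mul_left (by positivity) h1
  have h4 : Even (∑ S ∈ T.powerset, (hh F (vec c i₀ S) + hh F (vec c i₀ S + Pi.single i₀ 1))) := by
    rw [even_iff_two_dvd]
    exact (dvd_pow_self 2 (by omega)).trans h3
  have h5 : Even (∑ S ∈ T.powerset, (hh F (vec c i₀ S + Pi.single i₀ 1) - 1)) := by
    apply Finset.even_sum
    intro S _
    apply Odd.sub_odd _ odd_one
    rw [hD.hh_parity]
    apply hbent
    rw [ip_add_left, ip_vec_c c i₀ hc, ip_single, hc, zero_add]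
  have h6 : Even (∑ S ∈ T.powerset, ((if j (vec c i₀ S) = k then (1 : ℤ) else 0) -
      hh F (vec c i₀ S))) := by
    apply Finset.even_sum
    intro S _
    split_ifs with h
    · exact odd_one.sub_odd ((hD.hh_parity _).2 h)
    · rw [zero_sub]
      apply Even.neg
      rw [← Int.not_odd_iff_even, hD.hh_parity]
      exact h
  have h7 : ∑ S ∈ T.powerset, (if j (vec c i₀ S) = k then (1 : ℤ) else 0) =
      ∑ S ∈ T.powerset, ((if j (vec c i₀ S) = k then (1 : ℤ) else 0) - hh F (vec c i₀ S)) +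
      ∑ S ∈ T.powerset, (hh F (vec c i₀ S) + hh F (vec c i₀ S + Pi.single i₀ 1)) -
      ∑ S ∈ T.powerset, (hh F (vec c i₀ S + Pi.single i₀ 1) - 1) - (T.powerset.card : ℤ) := by
    rw [← sum_add_distrib, ← sum_sub_distrib]
    have : ((T.powerset.card : ℕ) : ℤ) = ∑ S ∈ T.powerset, (1 : ℤ) := by simp
    rw [this, ← sum_sub_distrib]
    apply sum_congr rfl
    intro S _
    ring
  rw [h7]
  apply Even.sub
  · exact (h6.add h4).sub h5
  · rw [card_powerset]
    push_cast
    exact even_two.pow_of_ne_zero (by omega)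

theorem no_max (hk : 2 ≤ k) (F : V (2 * k) → V (2 * k)) (hA : IsAPN F)
    (hP : IsPlateaued F) (a b : V (2 * k)) (hb : b ≠ F a) :
    3 * mult (graph F) (a, b) < 2 ^ (2 * k) - 1 := by
  classical
  by_contra hcon
  push Not at hcon
  obtain ⟨j, hD⟩ := exists_data F hP
  set c := F a + b with hcdef
  have hc0 : c ≠ 0 := by
    intro h
    exact hb (eq_of_vadd_eq_zero h).symm
  obtain ⟨i₀, hi₀⟩ : ∃ i, c i = 1 := by
    by_contra hcon2
    push Not at hcon2
    apply hc0
    funext i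
    rcases zmod2_cases (c i) with h | h
    · exact h
    · exact absurd h (hcon2 i)
  have m0 := hD.moment a 0
  have mc := hD.moment a c
  rw [cnt_zero F hA a] at m0
  rw [hcdef, cnt_eq_mult F a b hb, ← hcdef] at mc
  simp only [ip_zero_right, sgn_zero, one_mul] at m0
  set m := mult (graph F) (a, b) with hm
  have hpow : (1 : ℕ) ≤ 2 ^ (2 * k) := Nat.one_le_two_pow
  have hcon' : (2 : ℤ) ^ (2 * k) - 1 ≤ 3 * m := by
    have : ((2 ^ (2 * k) - 1 : ℕ) : ℤ) ≤ ((3 * m : ℕ) : ℤ) := by exact_mod_cast hcon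
    rw [Nat.cast_sub hpow] at this
    push_cast at this
    exact this
  -- off the hyperplane
  have e1 : ∑ v, (1 - sgn (ip v c)) * (((2 : ℤ) ^ (j v - k)) ^ 2) =
      3 * 2 ^ (2 * k) - 2 - 6 * (m : ℤ) := by
    have h : ∀ v, (1 - sgn (ip v c)) * (((2 : ℤ) ^ (j v - k)) ^ 2) =
        ((2 : ℤ) ^ (j v - k)) ^ 2 - sgn (ip v c) * (((2 : ℤ) ^ (j v - k)) ^ 2) := by
      intro v; ring
    simp only [h]
    rw [sum_sub_distrib, m0, mc]
    push_cast
    ring
  have e2 : ∑ v, (1 - sgn (ip v c)) = (2 : ℤ) ^ (2 * k) := by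
    rw [sum_sub_distrib, sum_sgn_ip, if_neg hc0, sum_const, nsmul_eq_mul, card_V]
    ring
  have hnn : ∀ v ∈ (univ : Finset (V (2 * k))), (1 - sgn (ip v c)) ≤
      (1 - sgn (ip v c)) * (((2 : ℤ) ^ (j v - k)) ^ 2) := by
    intro v _
    have h1 : 0 ≤ 1 - sgn (ip v c) := by
      unfold sgn
      split_ifs <;> norm_num
    have h2 : (1 : ℤ) ≤ ((2 : ℤ) ^ (j v - k)) ^ 2 := one_le_pow₀ (one_le_pow₀ (by norm_num))
    nlinarith
  have hle := sum_le_sum hnn
  rw [e1, e2] at hle
  have hm' : (3 : ℤ) * m = 2 ^ (2 * k) - 1 := by linarith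
  have heq : ∑ v, (1 - sgn (ip v c)) = ∑ v, (1 - sgn (ip v c)) * (((2 : ℤ) ^ (j v - k)) ^ 2) := by
    rw [e1, e2]; linarith
  have hall := (sum_eq_sum_iff_of_le hnn).1 heq
  have hbent : ∀ v, ip v c = 1 → j v = k := by
    intro v hv
    have h1 := hall v (mem_univ v)
    have h2 : sgn (ip v c) = -1 := by rw [hv]; decide
    rw [h2] at h1
    have h3 : ((2 : ℤ) ^ (j v - k)) ^ 2 = 1 := by linarith
    rw [← hD.g_parity, h3]
    exact odd_one
  -- the number of bent components in the hyperplane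
  have hcard : Fintype.card (Oth i₀) = 2 * k - 1 := by
    have : Fintype.card (Oth i₀) = Fintype.card (Fin (2 * k)) - 1 := by
      rw [Fintype.card_subtype_compl]
      simp
    rw [this, Fintype.card_fin]
  have h4 := weight_mod4 (ι := Oth i₀) k hk hcard
    (fun S => if j (vec c i₀ S) = k then (1 : ℤ) else 0)
    (fun S => by split_ifs <;> simp)
    (fun T hT => parity_cube hD c i₀ hi₀ (by omega) hbent T hT)
  have h5 : (4 : ℤ) ∣ ∑ S : Finset (Oth i₀), (((2 : ℤ) ^ (j (vec c i₀ S) - k)) ^ 2 -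
      (if j (vec c i₀ S) = k then (1 : ℤ) else 0)) := by
    apply dvd_sum
    intro S _
    split_ifs with h
    · rw [h]; simp
    · have hge := hD.ge (vec c i₀ S)
      obtain ⟨e, he⟩ : ∃ e, j (vec c i₀ S) - k = e + 1 := ⟨j (vec c i₀ S) - k - 1, by omega⟩
      rw [he, sub_zero]
      exact ⟨(2 ^ e) ^ 2, by ring⟩
  rw [sum_sub_distrib] at h5
  have h6 := dvd_add h5 h4
  rw [sub_add_cancel, ← sum_hyperplane c i₀ hi₀ (fun v => ((2 : ℤ) ^ (j v - k)) ^ 2)] at h6
  have e3 : 2 * ∑ v ∈ univ.filter (fun v => ip v c = 0), ((2 : ℤ) ^ (j v - k)) ^ 2 =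
      3 * 2 ^ (2 * k) - 2 + 6 * (m : ℤ) := by
    have h : 2 * ∑ v ∈ univ.filter (fun v => ip v c = 0), ((2 : ℤ) ^ (j v - k)) ^ 2 =
        ∑ v, ((2 : ℤ) ^ (j v - k)) ^ 2 + ∑ v, sgn (ip v c) * (((2 : ℤ) ^ (j v - k)) ^ 2) := by
      rw [sum_filter, mul_sum, ← sum_add_distrib]
      apply sum_congr rfl
      intro v _
      by_cases hv : ip v c = 0
      · rw [if_pos hv, hv, sgn_zero]; ring
      · rw [if_neg hv]
        have : sgn (ip v c) = -1 := by
          unfold sgn
          rw [if_neg hv]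
        rw [this]; ring
    rw [h, m0, mc]
    push_cast
    ring
  obtain ⟨q, hq⟩ := h6
  rw [hq] at e3
  obtain ⟨t, rfl⟩ : ∃ t, k = t + 2 := ⟨k - 2, by omega⟩
  have e6 : (2 : ℤ) ^ (2 * (t + 2)) = 8 * (2 * (2 ^ t * 2 ^ t)) := by ring
  rw [e6] at e3 hm'
  omega

/-- For every even `n = 2 k ≥ 4` and every plateaued APN function `F` on `F_2^n`, the exclude
multiplicity of every point outside the graph of `F` is strictly less than `(2^n - 1) / 3`. -/
theorem result (k : ℕ) (hk : 2 ≤ k) (F : V (2 * k) → V (2 * k)) (hA : IsAPN F)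
    (hP : IsPlateaued F) (p : V (2 * k) × V (2 * k)) (hp : p ∉ graph F) :
    3 * mult (graph F) p < 2 ^ (2 * k) - 1 := by
  obtain ⟨a, b⟩ := p
  have hb : b ≠ F a := by
    rintro rfl
    exact hp (mem_image.2 ⟨a, mem_univ _, rfl⟩)
  exact no_max hk F hA hP a b hb

end Pool.Agent.Results.MP_4cdc07_co.MaxMultiplicity
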